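import Pool.Agent.X257.AE.Pencil

/-!
# Selmer groups of the fibres of pencils at the prefixes of almost every real number

For a real number `α` and a base `b ≥ 2` the integers `⌊α b ^ m⌋`, `m = 0, 1, 2, ...`, are the
prefixes of the expansion of `α` in base `b`. We show: for almost every real `α`, for ALL pencils
`W_t : y² = x (x - D(t) u₀(t)) (x - D(t) u₁(t))` of elliptic curves over `ℚ` with full 2-torsion (under
a mild condition on the numbers of the irreducible factors) and all bases `b`, the curves `W_t` at the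
prefixes `t = ⌊α b ^ m⌋` have `rank + corank Ш[2 ^ ∞] ≥ r`, that is a 2-power Selmer group of corank
at least `r`, only for a set of `m` whose upper logarithmic density is at most `A ^ (-r)` for all
`r ≥ r₀(A)`, for every `A`, where `r₀` does not depend on `α` and `b`. For the prefixes of lengths
`s_0, s_1, ...` with `s_(k + 1) ≥ 2 s_k` the same is true for the upper natural density.
-/

set_option autoImplicit false

namespace Pool.Agent.Results.MP_a3f657_nt.AlmostEveryPrefix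

open Finset Polynomial Filter MeasureTheory

open Pool.Agent.TH841.SH.D (HasDiv rk)

/-- the curve `y² = x (x - A) (x - B)` over `ℚ` -/
def E (A B : ℤ) : WeierstrassCurve ℚ := ⟨0, -((A : ℚ) + B), 0, (A : ℚ) * B, 0⟩

/-- the data of a pencil: integers `a_k`, polynomials `f_{k,i}` (`k = 0, 1, 2`, `i < n_k`), and `D` -/
structure Pencil where
  /-- numbers of factors -/
  n : Fin 3 → ℕ
  /-- constants -/
  a : Fin 3 → ℤ
  /-- factors -/
  f : ∀ k : Fin 3, Fin (n k) → ℤ[X]
  /-- the twisting polynomial -/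
  D : ℤ[X]

namespace Pencil

/-- `u_k = a_k ∏ f_{k,i}` -/
noncomputable def u (P : Pencil) (k : Fin 3) : ℤ[X] := C (P.a k) * ∏ i, P.f k i

/-- the fibre `W_t : y² = x (x - D(t) u₀(t)) (x - D(t) u₁(t))` -/
noncomputable def fib (P : Pencil) (t : ℤ) : WeierstrassCurve ℚ :=
  E ((P.D * P.u 0).eval t) ((P.D * P.u 1).eval t)

/-- `u₀ - u₁ = u₂`, the `a_k` are not zero, the `f_{k,i}` are irreducible of positive degree, pairwise
not associated, and do not divide `D ≠ 0`, and each `n_k` is less than the sum of the two others -/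
structure Ok (P : Pencil) : Prop where
  a_ne : ∀ k, P.a k ≠ 0
  irr : ∀ k i, Irreducible (P.f k i) ∧ 0 < (P.f k i).natDegree
  not_assoc : ∀ k i l j, (⟨k, i⟩ : Σ k : Fin 3, Fin (P.n k)) ≠ ⟨l, j⟩ →
    ¬ Associated (P.f k i) (P.f l j)
  sub : P.u 0 - P.u 1 = P.u 2
  D_ne : P.D ≠ 0
  not_dvd : ∀ k i, ¬ P.f k i ∣ P.D
  bal : ∀ k, 2 * P.n k < P.n 0 + P.n 1 + P.n 2

/-- the integers `t` for which the fibre is singular, or `rank + q ≥ r` for some `q` such that
`(ℚ₂ / ℤ₂) ^ q` is a subgroup of `Ш` -/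
def High (P : Pencil) (r : ℕ) : Set ℤ :=
  {t | (∃ k, (P.D * P.u k).eval t = 0) ∨ ∃ q : ℕ, HasDiv (P.fib t) q ∧ r ≤ rk (P.fib t) + q}

end Pencil

open Classical in
/-- the upper logarithmic density of `S` is at most `δ` -/
def LogDensityLe (S : Set ℕ) (δ : ℝ) : Prop := ∀ ε : ℝ, 0 < ε → ∀ᶠ x : ℕ in atTop,
  ∑ m ∈ (Icc 1 x).filter (fun m => m ∈ S), 1 / (m : ℝ) ≤ (δ + ε) * Real.log x

open Classical in
/-- the upper natural density of `S` is at most `δ` -/
def DensityLe (S : Set ℕ) (δ : ℝ) : Prop := ∀ ε : ℝ, 0 < ε → ∀ᶠ x : ℕ in atTop,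
  (((range x).filter (fun k => k ∈ S)).card : ℝ) ≤ (δ + ε) * x

/-! ### Proof -/

instance : Countable Pencil := by
  have h : Function.Injective (fun P : Pencil => (⟨P.n, P.a, P.f, P.D⟩ :
      Σ n : Fin 3 → ℕ, (Fin 3 → ℤ) × (∀ k : Fin 3, Fin (n k) → ℤ[X]) × ℤ[X])) := by
    rintro ⟨n, a, f, D⟩ ⟨n', a', f', D'⟩ h
    simp only [Sigma.mk.injEq] at h
    obtain ⟨rfl, h⟩ := h
    simp only [heq_eq_eq, Prod.mk.injEq] at h
    obtain ⟨rfl, rfl, rfl⟩ := h
    rfl
  exact h.countable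

theorem tails (P : Pencil) (hP : P.Ok) (A : ℕ) (hA : 1 ≤ A) : ∃ r0 : ℕ, ∀ r, r0 ≤ r →
    ∃ M0 : ℕ, Pool.Agent.X257.AE.Dens (P.High r) (1 / (A : ℝ) ^ r) M0 := by
  classical
  obtain ⟨-, h⟩ := Pool.Agent.Results.MP_157626_nt.TwistedPencilTails.result P.n P.a P.f P.D
    hP.a_ne hP.irr hP.not_assoc hP.sub hP.D_ne hP.not_dvd hP.bal
  obtain ⟨r0, hr0⟩ := h A 3 1 one_pos
  refine ⟨r0, fun r hr => ?_⟩
  obtain ⟨M0, hM0⟩ := hr0 r hr
  refine ⟨M0, fun N M hM hN => ?_⟩
  have hA' : (0 : ℝ) < (A : ℝ) ^ r := by positivity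
  have h1 := hM0 N M hM hN
  have h2 : (Pool.Agent.Results.MP_157626_nt.TwistedPencilTails.On
      (Pool.Agent.Results.MP_157626_nt.TwistedPencilTails.High P.D P.a P.f r) N M).card =
      ((Ioc N (N + M)).filter (fun t => t ∈ P.High r)).card := by
    unfold Pool.Agent.Results.MP_157626_nt.TwistedPencilTails.On
    congr 1
  rw [h2, one_mul] at h1
  rw [one_div_mul_eq_div, le_div_iff₀ hA']
  linarith

/-- **Theorem.** There is a function `r₀` such that for almost every real `α`: for all the pencils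
`W_t : y² = x (x - D(t) u₀(t)) (x - D(t) u₁(t))` which satisfy the conditions `Ok`, all `A ≥ 1`, all
bases `b ≥ 2` and all `r ≥ r₀`, the `m` for which the fibre at `t = ⌊α b ^ m⌋` is singular or has
`rank + corank Ш[2 ^ ∞] ≥ r` have an upper logarithmic density at most `A ^ (-r)`. For all sequences
`s` with `s_0 ≥ 1` and `s_(k + 1) ≥ 2 s_k` the same is true for almost every real `α` for the `k` for
which this happens at `t = ⌊α b ^ s_k⌋` and the upper natural density. -/
theorem result : ∃ r0 : Pencil → ℕ → ℕ,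
    (∀ᵐ α : ℝ, ∀ P : Pencil, P.Ok → ∀ A : ℕ, 1 ≤ A → ∀ b : ℕ, 2 ≤ b → ∀ r : ℕ, r0 P A ≤ r →
      LogDensityLe {m | ⌊α * (b : ℝ) ^ m⌋ ∈ P.High r} (1 / (A : ℝ) ^ r)) ∧
    ∀ s : ℕ → ℕ, 1 ≤ s 0 → (∀ k, 2 * s k ≤ s (k + 1)) →
      ∀ᵐ α : ℝ, ∀ P : Pencil, P.Ok → ∀ A : ℕ, 1 ≤ A → ∀ b : ℕ, 2 ≤ b → ∀ r : ℕ, r0 P A ≤ r →
        DensityLe {k | ⌊α * (b : ℝ) ^ s k⌋ ∈ P.High r} (1 / (A : ℝ) ^ r) := by
  classical
  choose! r0 h using tails
  refine ⟨r0, ?_, fun s hs0 hs => ?_⟩
  · rw [ae_all_iff]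
    intro P
    by_cases hP : P.Ok
    swap
    · exact Eventually.of_forall fun α h => absurd h hP
    simp only [hP, forall_true_left]
    rw [ae_all_iff]
    intro A
    by_cases hA : 1 ≤ A
    swap
    · exact Eventually.of_forall fun α h => absurd h hA
    simp only [hA, forall_true_left]
    have h1 : ∀ᵐ α : ℝ, ∀ r : ℕ, r0 P A ≤ r → ∀ b : ℕ, 2 ≤ b →
        LogDensityLe {m | ⌊α * (b : ℝ) ^ m⌋ ∈ P.High r} (1 / (A : ℝ) ^ r) := by
      rw [ae_all_iff]
      intro r
      by_cases hr : r0 P A ≤ r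
      swap
      · exact Eventually.of_forall fun α h => absurd h hr
      simp only [hr, forall_true_left]
      obtain ⟨M0, hM0⟩ := h P hP A hA r hr
      filter_upwards [Pool.Agent.X257.AE.ae_log hM0] with α hα b hb ε hε
      filter_upwards [hα b hb ε hε] with x hx
      exact hx
    filter_upwards [h1] with α hα b hb r hr
    exact hα r hr b hb
  · rw [ae_all_iff]
    intro P
    by_cases hP : P.Ok
    swap
    · exact Eventually.of_forall fun α h => absurd h hP
    simp only [hP, forall_true_left]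
    rw [ae_all_iff]
    intro A
    by_cases hA : 1 ≤ A
    swap
    · exact Eventually.of_forall fun α h => absurd h hA
    simp only [hA, forall_true_left]
    have h1 : ∀ᵐ α : ℝ, ∀ r : ℕ, r0 P A ≤ r → ∀ b : ℕ, 2 ≤ b →
        DensityLe {k | ⌊α * (b : ℝ) ^ s k⌋ ∈ P.High r} (1 / (A : ℝ) ^ r) := by
      rw [ae_all_iff]
      intro r
      by_cases hr : r0 P A ≤ r
      swap
      · exact Eventually.of_forall fun α h => absurd h hr
      simp only [hr, forall_true_left]
      obtain ⟨M0, hM0⟩ := h P hP A hA r hr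
      filter_upwards [Pool.Agent.X257.AE.ae_seq hM0 s hs0 hs] with α hα b hb ε hε
      filter_upwards [hα b hb ε hε] with x hx
      exact hx
    filter_upwards [h1] with α hα b hb r hr
    exact hα r hr b hb

end Pool.Agent.Results.MP_a3f657_nt.AlmostEveryPrefix
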