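import Mathlib
import Pool.Agent.X217.SI.One

/-!
# The `2 ^ ∞`-Selmer groups of the quotients of the curves with full rational 2-torsion

Every elliptic curve over `ℚ` with full rational 2-torsion is isomorphic to a curve
`E : y² = x (x - A) (x - B)` with positive integers `A ≠ B`. Let `E'_0, E'_1, E'_2` be its three
quotients by the subgroups of order two. When `A`, `B` run through the integers from `1` to `X`, then
`Sel_{2 ^ ∞}(E'_i) ≅ (ℤ/2) ^ {m_i} ⊕ H_i`, where the number of the elements of order two of `H_i` is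
bounded in probability, while
`(m_i - (3 / 2) log log X) / √((5 / 2) log log X)`, `i = 0, 1, 2`,
converge in distribution to three *independent* standard Gaussian variables. So, in contrast to the
law `𝒬`, the groups have almost surely an unbounded number of cyclic summands, almost all of order
two.
-/

set_option autoImplicit false

namespace Pool.Agent.Results.MP_a3f657_nt.QuotientSelmerStructure

open Finset Filter Topology ProbabilityTheory WeierstrassCurve

open Pool.Agent.Y667.BK (SelInf)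

/-- the quotient of `y² = x (x - a) (x - b)` by its subgroup generated by `(0, 0)`: the curve
`y² = x³ + 2 (a + b) x² + (a - b)² x` -/
def Q (a b : ℤ) : WeierstrassCurve ℚ := ⟨0, 2 * ((a : ℚ) + b), 0, ((a : ℚ) - b) ^ 2, 0⟩

/-- the quotients of `y² = x (x - A) (x - B)` by the subgroups generated by the points `(0, 0)`,
`(A, 0)` and `(B, 0)` of order two -/
def E' (i : Fin 3) (A B : ℤ) : WeierstrassCurve ℚ := ![Q A B, Q (-A) (B - A), Q (-B) (A - B)] i

/-- the abelian group `S` is the direct sum of `m` groups of order two and of a group with at most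
`2 ^ R` elements `h` with `2 h = 0` -/
def Splits (S : Type) [AddCommGroup S] (m R : ℕ) : Prop :=
  ∃ (H : Type) (_ : AddCommGroup H), Nonempty (S ≃+ (Fin m → ZMod 2) × H) ∧
    Finite {h : H // h + h = 0} ∧ Nat.card {h : H // h + h = 0} ≤ 2 ^ R

/-- the distribution function of the standard Gaussian variable -/
noncomputable def Φ (z : ℝ) : ℝ := (gaussianReal 0 1).real (Set.Iic z)

lemma E'_eq (i : Fin 3) (A B : ℤ) : E' i A B =
    Pool.Agent.TH841.LS.WI (Pool.Agent.Y676.IS.tri i A B).1 (Pool.Agent.Y676.IS.tri i A B).2 := by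
  fin_cases i <;> rfl

lemma Sq_eq (X : ℕ) : Pool.Agent.X217.EK.Sq X = Icc (1 : ℤ) X ×ˢ Icc (1 : ℤ) X := by
  have e2 : Ioc (0 : ℤ) (0 + (X : ℤ)) = Icc (1 : ℤ) X := by
    ext t
    rw [mem_Ioc, mem_Icc]
    omega
  unfold Pool.Agent.X217.EK.Sq
  rw [e2]

/-- the number of the summands -/
lemma exists_m (A B : ℤ) : ∃ m : ℕ, A ≠ 0 → B ≠ 0 → A ≠ B →
    ∀ R : ℕ, Pool.Agent.W307.SE.SN A B < 2 ^ (R + 1) →
      Splits (SelInf (Pool.Agent.TH841.LS.WI A B)) m (3 * R + 5) ∧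
      |(m : ℝ) - Pool.Agent.X217.EK.GG A B| ≤
        3 * (Pool.Agent.X217.EK.TT A B).card + ((6 * R + 32 : ℕ) : ℝ) := by
  classical
  by_cases h : A ≠ 0 ∧ B ≠ 0 ∧ A ≠ B
  · obtain ⟨hA, hB, hAB⟩ := h
    obtain ⟨R0, hR0⟩ := Pool.Agent.X217.SI.exists_R A B
    obtain ⟨f1, -, -⟩ := Pool.Agent.X217.SI.one_sel hA hB hAB hR0
    obtain ⟨m, H, i1, e, c1, c2⟩ := Pool.Agent.X217.SI.split _ f1
    refine ⟨m, fun _ _ _ R hR => ?_⟩
    obtain ⟨-, g2, g3⟩ := Pool.Agent.X217.SI.one_sel hA hB hAB hR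
    have hne : Nonempty {x : SelInf (Pool.Agent.TH841.LS.WI A B) // x + x = 0} :=
      ⟨⟨0, add_zero 0⟩⟩
    have hp : 0 < Nat.card {x : SelInf (Pool.Agent.TH841.LS.WI A B) // x + x = 0} := Nat.card_pos
    have hq : 0 < Nat.card {y : SelInf (Pool.Agent.TH841.LS.WI A B) //
        y + y = 0 ∧ ∃ x, x + x = y} := by
      rcases Nat.eq_zero_or_pos (Nat.card {y : SelInf (Pool.Agent.TH841.LS.WI A B) //
        y + y = 0 ∧ ∃ x, x + x = y}) with h0 | h0
      · rw [h0, mul_zero] at c2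
        omega
      · exact h0
    refine ⟨⟨H, i1, e, Nat.finite_of_card_ne_zero (by rw [c1]; exact hq.ne'), c1.le.trans g2⟩, ?_⟩
    have k1 : Real.logb 2 (Nat.card {x : SelInf (Pool.Agent.TH841.LS.WI A B) // x + x = 0}) =
        m + Real.logb 2 (Nat.card {y : SelInf (Pool.Agent.TH841.LS.WI A B) //
          y + y = 0 ∧ ∃ x, x + x = y}) := by
      rw [← c2]
      push_cast
      rw [Real.logb_mul (by positivity) (by exact_mod_cast hq.ne'), Real.logb_pow,
        Real.logb_self_eq_one (by norm_num), mul_one]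
    have k2 : 0 ≤ Real.logb 2 (Nat.card {y : SelInf (Pool.Agent.TH841.LS.WI A B) //
        y + y = 0 ∧ ∃ x, x + x = y}) :=
      Real.logb_nonneg (by norm_num) (by exact_mod_cast hq)
    have k3 : Real.logb 2 (Nat.card {y : SelInf (Pool.Agent.TH841.LS.WI A B) //
        y + y = 0 ∧ ∃ x, x + x = y}) ≤ 3 * R + 5 := by
      have h1 : Real.logb 2 (Nat.card {y : SelInf (Pool.Agent.TH841.LS.WI A B) //
          y + y = 0 ∧ ∃ x, x + x = y}) ≤ Real.logb 2 ((2 : ℝ) ^ (3 * R + 5)) :=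
        Real.logb_le_logb_of_le (by norm_num) (by exact_mod_cast hq) (by exact_mod_cast g2)
      rw [Real.logb_pow, Real.logb_self_eq_one (by norm_num), mul_one] at h1
      push_cast at h1
      exact h1
    rw [abs_le] at g3 ⊢
    push_cast
    constructor
    · linarith [g3.1]
    · linarith [g3.2]
  · exact ⟨0, fun h1 h2 h3 => absurd ⟨h1, h2, h3⟩ h⟩

open Classical in
/-- **Theorem.** There are integers `m_i(A, B) ≥ 0`, `i = 0, 1, 2`, such that:

(1) for every `ε > 0` there is an `R`, such that for every `X ≥ 1`, with at most `ε X²` exceptions, all the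
pairs `(A, B)` of integers from `1` to `X` with `A ≠ B` satisfy
`Sel_{2 ^ ∞}(E'_i) ≅ (ℤ/2) ^ {m_i} ⊕ H_i` with `#H_i[2] ≤ 2 ^ R` for `i = 0, 1, 2`;

(2) for all real `z_0, z_1, z_2` the proportion of the pairs with
`m_i ≤ (3 / 2) log log X + z_i √((5 / 2) log log X)` for `i = 0, 1, 2` tends to
`Φ(z_0) Φ(z_1) Φ(z_2)`.

Moreover `Sel_{2 ^ ∞}(E'_i) ≅ (ℤ/2) ^ {m_i} ⊕ H_i` with a finite group `H_i[2]` for all
nonzero `A ≠ B`. -/
theorem result : ∃ m : Fin 3 → ℤ → ℤ → ℕ,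
    (∀ A B : ℤ, A ≠ 0 → B ≠ 0 → A ≠ B → ∃ R : ℕ, ∀ i : Fin 3,
      Splits (SelInf (E' i A B)) (m i A B) R) ∧
    (∀ ε : ℝ, 0 < ε → ∃ R : ℕ, ∀ X : ℕ, 1 ≤ X →
      (((Icc (1 : ℤ) X ×ˢ Icc (1 : ℤ) X).filter (fun t : ℤ × ℤ => t.1 ≠ t.2 ∧
        ¬ ∀ i : Fin 3, Splits (SelInf (E' i t.1 t.2)) (m i t.1 t.2) R)).card : ℝ) ≤
          ε * X ^ 2) ∧
    ∀ z : Fin 3 → ℝ, Tendsto (fun X : ℕ => (((Icc (1 : ℤ) X ×ˢ Icc (1 : ℤ) X).filter
      (fun t : ℤ × ℤ => t.1 ≠ t.2 ∧ ∀ i : Fin 3, (m i t.1 t.2 : ℝ) ≤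
        3 / 2 * Real.log (Real.log X) + z i * √(5 / 2 * Real.log (Real.log X)))).card : ℝ) /
          (X : ℝ) ^ 2) atTop (𝓝 (∏ i : Fin 3, Φ (z i))) := by
  choose m0 hm0 using exists_m
  have key : ∀ A B : ℤ, A ≠ 0 → B ≠ 0 → A ≠ B → ∀ R : ℕ,
      Pool.Agent.W307.SE.SN A B < 2 ^ (R + 1) → ∀ i : Fin 3, Splits (SelInf (E' i A B))
        (m0 (Pool.Agent.Y676.IS.tri i A B).1 (Pool.Agent.Y676.IS.tri i A B).2) (3 * R + 5) := by
    intro A B hA hB hAB R hR i
    obtain ⟨t1, t2, t3⟩ := Pool.Agent.Y676.IS.tri_ne hA hB hAB i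
    have h := (hm0 _ _ t1 t2 t3 R (by rw [Pool.Agent.X217.EK.SN_tri i hA hB hAB]; exact hR)).1
    rw [E'_eq]
    exact h
  refine ⟨fun i A B => m0 (Pool.Agent.Y676.IS.tri i A B).1 (Pool.Agent.Y676.IS.tri i A B).2,
    fun A B hA hB hAB => ?_, fun ε hε => ?_, fun z => ?_⟩
  · obtain ⟨R, hR⟩ := Pool.Agent.X217.SI.exists_R A B
    exact ⟨3 * R + 5, fun i => key A B hA hB hAB R hR i⟩
  · obtain ⟨R, hR⟩ := Pool.Agent.X217.EK.sn_all hε
    refine ⟨3 * R + 5, fun X hX => le_trans ?_ (hR X hX)⟩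
    rw [Sq_eq]
    refine Nat.cast_le.2 (card_le_card ?_)
    intro t ht
    rw [mem_filter, mem_product, mem_Icc, mem_Icc] at ht
    obtain ⟨⟨⟨a1, a2⟩, b1, b2⟩, h1, h2⟩ := ht
    rw [mem_filter, mem_product, mem_Icc, mem_Icc]
    refine ⟨⟨⟨a1, a2⟩, b1, b2⟩, h1, ?_⟩
    by_contra hcon
    exact h2 fun i => key t.1 t.2 (by omega) (by omega) h1 R (not_le.1 hcon) i
  · have hL : Pool.Agent.X217.SI.Near (fun A B => (m0 A B : ℝ)) (fun R => 6 * R + 32) :=
      fun A B hA hB hAB R hR => (hm0 A B hA hB hAB R hR).2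
    refine (tendsto_congr' ?_).1 (Pool.Agent.X217.SI.mainA hL z)
    filter_upwards [Pool.Agent.X217.EK.tendsto_ell.eventually_gt_atTop 0] with X hX
    have hs : 0 < √(5 / 2 * Pool.Agent.X217.EK.ell X) := Real.sqrt_pos.2 (by positivity)
    rw [Sq_eq]
    congr 3
    refine Finset.filter_congr fun t _ => ?_
    refine and_congr Iff.rfl (forall_congr' fun i => ?_)
    unfold Pool.Agent.X217.SI.Za
    rw [div_le_iff₀ hs, sub_le_iff_le_add']
    rfl

end Pool.Agent.Results.MP_a3f657_nt.QuotientSelmerStructure
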