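import Pool.Agent.X261.SM.Avg

/-!
The Selmer groups at two of the quadratic twists `E_D : D(t) y ^ 2 = f(x) - t` over `k(t)`. The
definitions of the group `E_D(Ω)` (`Jac`) and of its Galois cohomology are in `Pool.Agent.Y160.SL.Jac`.
-/

set_option autoImplicit false

open Polynomial IsDedekindDomain
open scoped Classical

namespace Pool.Agent.Results.MP_a3f657_nt.SelmerPrimeTwistsCubicPencil

open Pool.Agent.TH115.GD (Sep Comp)
open Pool.Agent.Y160.SL (Jac IsCoc IsCobOf LocTriv)

section selmer

variable (A : Type) {K : Type} [CommRing A] [IsDedekindDomain A] [Field K] [Algebra A K]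
  [IsFractionRing A K] (F : K[X])

/-- A cocycle of the Galois group of `K` with values in the elements of order two of the Jacobian `E` of
`Y ^ 2 = F(X)`, which is trivial in `H ^ 1(K_v, E)` for the completions `K_v` of `K` at all the maximal
ideals of `A`. -/
structure SelmerCocycle : Type where
  val : (Sep K ≃ₐ[K] Sep K) → Jac 2 F (Sep K)
  coc : IsCoc 2 F val
  two : ∀ σ, 2 • val σ = 0
  loc : ∀ v : HeightOneSpectrum A, LocTriv 2 F (Comp A K v) (Sep (Comp A K v)) val

/-- Two cocycles define the same element of `H ^ 1(K, E[2])`. -/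
def SameClass (c c' : SelmerCocycle A F) : Prop :=
  ∃ R : Jac 2 F (Sep K), 2 • R = 0 ∧ IsCobOf 2 F (fun σ => c.val σ - c'.val σ) R

/-- The set of the elements of the Selmer group `Sel_2(E / K)`, with the local conditions at the maximal
ideals of `A` only. -/
def Selmer : Type := Quot (SameClass A F)

/-- The Selmer group `Sel_(2 ^ ∞)(E / K)` is zero, even with the local conditions at the maximal ideals
of `A` only: every continuous cocycle with values in `E[2 ^ m]` which is trivial in `H ^ 1(K_v, E)` for
all `v` is the coboundary of an element of `E[2 ^ m]`. -/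
def SelmerInfZero : Prop :=
  ∀ (m : ℕ) (c : (Sep K ≃ₐ[K] Sep K) → Jac 2 F (Sep K)), IsCoc 2 F c →
    (∀ σ, 2 ^ m • c σ = 0) →
    (∀ v : HeightOneSpectrum A, LocTriv 2 F (Comp A K v) (Sep (Comp A K v)) c) →
    ∃ R : Jac 2 F (Sep K), 2 ^ m • R = 0 ∧ IsCobOf 2 F c R

end selmer

section defs

variable {k : Type} [Field k]

/-- The characteristic of `k` is not two or three, `f` is a monic cubic polynomial and it is not of the
form `(x - a) ^ 3 + b`. -/
structure IsCubicBase (f : k[X]) : Prop where
  two_ne : (2 : k) ≠ 0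
  three_ne : (3 : k) ≠ 0
  monic : f.Monic
  degree : f.natDegree = 3
  generic : f.coeff 2 ^ 2 ≠ 3 * f.coeff 1

/-- The polynomial `D ^ 3 (f(X / D) - t)` over `K = k(t)`: the elliptic curve `D(t) y ^ 2 = f(x) - t` has
the equation `Y ^ 2 = D ^ 3 (f(X / D) - t)`, where `X = D x`, `Y = D ^ 2 y`. -/
noncomputable def twist (K : Type) [Field K] [Algebra k[X] K] (f D : k[X]) : K[X] :=
  ((f.map C - C X : k[X][X]).scaleRoots D).map (algebraMap k[X] K)

/-- The number of the elements of the Selmer group `Sel_2` of `E_D` (zero, if it is infinite). -/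
noncomputable def selmerOrder (K : Type) [Field K] [Algebra k[X] K] [IsFractionRing k[X] K]
    (f D : k[X]) : ℕ := Nat.card (Selmer k[X] (twist K f D))

/-- The primes over `P`: the monic irreducible polynomials in `k[x]` which divide `P(f(x))`. -/
def PrimesOver (f P : k[X]) : Set k[X] := {R | R.Monic ∧ Irreducible R ∧ R ∣ P.comp f}

/-- The monic irreducible divisors of `D`. -/
def PrimeDivisors (D : k[X]) : Set k[X] := {P | P.Monic ∧ Irreducible P ∧ P ∣ D}

/-- The sum over the prime divisors `P` of `D` of the number of the primes over `P` less one. -/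
noncomputable def splitting (f D : k[X]) : ℕ :=
  ∑ᶠ P ∈ PrimeDivisors D, ((PrimesOver f P).ncard - 1)

/-- The monic irreducible polynomials of degree `N`. -/
def PrimesOfDegree (k : Type) [Field k] (N : ℕ) : Set k[X] :=
  {P | P.Monic ∧ Irreducible P ∧ P.natDegree = N}

/-- The monic squarefree polynomials of degree `n`. -/
def SquarefreesOfDegree (k : Type) [Field k] (n : ℕ) : Set k[X] :=
  {D | D.Monic ∧ Squarefree D ∧ D.natDegree = n}

/-- The bounds for the twists by the primes `P` of degree `N`, and by `u P` with constants `u ≠ 0`, where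
`k` has `q` elements. -/
structure PrimeTwists (K : Type) [Field K] [Algebra k[X] K] [IsFractionRing k[X] K]
    (f : k[X]) (N : ℕ) : Prop where
  /-- the average of the order of `Sel_2` is at most two -/
  average : ∀ u : k[X] → k, (∀ P, u P ≠ 0) →
    ∑ᶠ P ∈ PrimesOfDegree k N, selmerOrder K f (C (u P) * P) ≤ 2 * (PrimesOfDegree k N).ncard
  /-- the order of `Sel_2` is at most four -/
  all_le : ∀ P ∈ PrimesOfDegree k N, ∀ u : k, u ≠ 0 → selmerOrder K f (C u * P) ≤ 4
  /-- for at least a third of the primes `Sel_(2 ^ ∞)` is zero for all `u P`, up to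
  `2 q ^ (N / 2) / N` -/
  zero_ge : Nat.card k ^ N ≤ 3 * (N * {P ∈ PrimesOfDegree k N |
    ∀ u : k, u ≠ 0 → SelmerInfZero k[X] (twist K f (C u * P))}.ncard) + 6 * Nat.card k ^ (N / 2)
  /-- `Sel_2` has more than two elements, for some `u P`, for at most one sixth of the primes, up to
  `q ^ (N / 2) / N` -/
  large_le : 6 * (N * {P ∈ PrimesOfDegree k N |
    ∃ u : k, u ≠ 0 ∧ 2 < selmerOrder K f (C u * P)}.ncard) ≤
      Nat.card k ^ N + 6 * Nat.card k ^ (N / 2)

end defs

open Pool.Agent.X261.TD Pool.Agent.TH943.HJ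

section aux

variable {k : Type} [Field k]

theorem derivative_ne {f : k[X]} (hf : IsCubicBase f) : derivative f ≠ 0 := by
  intro h
  have h1 : (derivative f).coeff 2 = 0 := by rw [h, coeff_zero]
  rw [coeff_derivative] at h1
  have h4 : f.coeff (2 + 1) = 1 := by
    have h5 : f.leadingCoeff = 1 := hf.monic
    rwa [leadingCoeff, hf.degree] at h5
  rw [h4, one_mul] at h1
  exact hf.three_ne (by push_cast at h1; linear_combination h1)

theorem over_card {f P : k[X]} (hd : f.natDegree = 3) (hP : P ≠ 0) :
    (PrimesOver f P).ncard = (primes (P.comp f)).card := by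
  rw [← Set.ncard_coe_finset]
  congr 1
  ext R
  rw [Finset.mem_coe, mem_primes (comp_ne hd hP)]
  rfl

theorem splitting_eq {f D : k[X]} (hd : f.natDegree = 3) (hD : D ≠ 0) :
    splitting f D = ∑ P ∈ primes D, ((primes (P.comp f)).card - 1) := by
  have h : PrimeDivisors D = (primes D : Set k[X]) := by
    ext P
    rw [Finset.mem_coe, mem_primes hD]
    rfl
  unfold splitting
  rw [h, finsum_mem_coe_finset]
  refine Finset.sum_congr rfl fun P hP => ?_
  rw [over_card hd ((mem_primes hD P).1 hP).2.1.ne_zero]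

variable {K : Type} [Field K] [Algebra k[X] K] [IsFractionRing k[X] K]

theorem selmer_bound {f D : k[X]} (hf : IsCubicBase f) (hD : D ≠ 0) :
    Finite (Selmer k[X] (twist K f D)) ∧
      selmerOrder K f D ≤ 2 ^ ∑ P ∈ primes D, ((primes (P.comp f)).card - 1) := by
  obtain ⟨V, Φ, hV, hΦ, hinj⟩ := Pool.Agent.X261.SM.classes (K := K) hf.monic hf.degree hf.two_ne
    (derivative_ne hf) hD
  let g : Selmer k[X] (twist K f D) → V.powerset := fun x =>
    ⟨Φ x.out.val, Finset.mem_powerset.2 (hΦ _)⟩
  have hsel : ∀ c : SelmerCocycle k[X] (twist K f D),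
      Pool.Agent.X261.SM.IsSel k[X] (twist K f D) c.val := fun c =>
    ⟨⟨c.coc.lc, c.coc.mul⟩, c.two, c.loc⟩
  have hg : Function.Injective g := by
    intro x y hxy
    have h1 : Φ x.out.val = Φ y.out.val := congrArg Subtype.val hxy
    obtain ⟨R, hR, hR'⟩ := hinj _ _ (hsel x.out) (hsel y.out) h1
    rw [← Quot.out_eq x, ← Quot.out_eq y]
    exact Quot.sound ⟨R, hR, hR'⟩
  refine ⟨Finite.of_injective g hg, ?_⟩
  have h2 := Nat.card_le_card_of_injective g hg
  have h3 : Nat.card V.powerset = 2 ^ V.card := by
    rw [Nat.card_eq_fintype_card, Fintype.card_coe, Finset.card_powerset]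
  exact (h2.trans_eq h3).trans (Nat.pow_le_pow_right two_pos hV)

theorem inf_zero {f D : k[X]} (hf : IsCubicBase f) (hD : D ≠ 0)
    (hin : ∀ P : k[X], Irreducible P → P ∣ D → Irreducible (P.comp f)) :
    SelmerInfZero k[X] (twist K f D) := fun m c hc h2 hv =>
  Pool.Agent.X261.SM.inf_inert hf.monic hf.degree hf.two_ne (derivative_ne hf) hD hin m c hc h2 hv

theorem order_prime {f P : k[X]} (hf : IsCubicBase f) (hPm : P.Monic) (hP : Irreducible P) {u : k}
    (hu : u ≠ 0) : selmerOrder K f (C u * P) ≤ 2 ^ ((primes (P.comp f)).card - 1) := by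
  have h1 := (selmer_bound (K := K) hf (mul_ne_zero (C_ne_zero.2 hu) hP.ne_zero)).2
  rwa [primes_const hu ⟨P, hPm, hP⟩, Finset.sum_singleton] at h1

theorem inert_mul {f P : k[X]} (hP : Irreducible P) (hPf : Irreducible (P.comp f)) {u : k}
    (hu : u ≠ 0) {Q : k[X]} (hQ : Irreducible Q) (hQP : Q ∣ C u * P) : Irreducible (Q.comp f) := by
  have h1 : Q ∣ P := (isUnit_C.2 (isUnit_iff_ne_zero.2 hu)).dvd_mul_left.1 hQP
  obtain ⟨w, hw⟩ := hQ.associated_of_dvd hP h1
  have h6 : Associated (Q.comp f) (P.comp f) := by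
    refine ⟨Units.map (compRingHom f : k[X] →* k[X]) w, ?_⟩
    show Q.comp f * (w : k[X]).comp f = _
    rw [← mul_comp, hw]
  exact h6.irreducible_iff.2 hPf

theorem prime_twists [Finite k] {f : k[X]} (hf : IsCubicBase f) {N : ℕ} (hN : 0 < N) :
    PrimeTwists K f N := by
  have hin := Pool.Agent.X261.TS.inert_bounds hf.two_ne hf.three_ne hf.monic hf.degree hf.generic hN
  have hfin := irr_finite (k := k) N
  refine ⟨fun u hu => ?_, fun P hP u hu => ?_, ?_, ?_⟩
  · have h1 := Pool.Agent.X261.SM.sum_le (f := f) hf.degree (N := N)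
      (I := fun P => selmerOrder K f (C (u P) * P))
      (fun P hP => order_prime hf hP.1 hP.2.1 (hu P))
    change ∑ᶠ P ∈ irr k N, _ ≤ _
    rw [finsum_mem_eq_finite_toFinset_sum _ hfin]
    exact h1
  · exact (order_prime hf hP.1 hP.2.1 hu).trans
      (Pool.Agent.X261.SM.pow_le_four hf.degree hP.1 hP.2.1)
  · have h1 : {P ∈ irr k N | Irreducible (P.comp f)}.ncard ≤ {P ∈ PrimesOfDegree k N |
        ∀ u : k, u ≠ 0 → SelmerInfZero k[X] (twist K f (C u * P))}.ncard := by
      refine Set.ncard_le_ncard ?_ (hfin.subset fun P hP => hP.1)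
      rintro P ⟨hP, hPf⟩
      exact ⟨hP, fun u hu => inf_zero hf (mul_ne_zero (C_ne_zero.2 hu) hP.2.1.ne_zero)
        fun Q hQ hQP => inert_mul hP.2.1 hPf hu hQ hQP⟩
    have h2 := Nat.mul_le_mul_left N h1
    omega
  · have h1 := Pool.Agent.X261.SM.large_le (f := f) hf.degree (N := N)
      (T := {P ∈ PrimesOfDegree k N | ∃ u : k, u ≠ 0 ∧ 2 < selmerOrder K f (C u * P)}) (by
        rintro P ⟨hP, u, hu, h⟩
        exact ⟨hP, lt_of_lt_of_le h (order_prime hf hP.1 hP.2.1 hu)⟩)
    have h2 := Nat.mul_le_mul_left N h1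
    generalize {P ∈ PrimesOfDegree k N |
      ∃ u : k, u ≠ 0 ∧ 2 < selmerOrder K f (C u * P)}.ncard = a at *
    have h3 : N * (2 * a) = 2 * (N * a) := by ring
    omega

end aux

/-- **The Selmer groups at two of the quadratic twists `E_D : D(t) y ^ 2 = f(x) - t` over `K = k(t)`.**

Let `k` be a finite field with `q` elements, of characteristic different from two and three, and `f` a
monic cubic polynomial over `k` which is not of the form `(x - a) ^ 3 + b`. All the Selmer groups are
defined by the local conditions at the places different from `t = ∞`, so that they contain the usual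
ones.

1. For every `D ≠ 0` the Selmer group `Sel_2(E_D)` is finite and it has at most two to the power
`∑ (s(P) - 1)` elements, where the sum is over the prime divisors `P` of `D` and `s(P)` is the number of
the prime divisors of `P(f(x))`.

2. If `P(f(x))` is irreducible for all the prime divisors `P` of `D`, then `Sel_(2 ^ ∞)(E_D)` is zero.

3. For every `N ≥ 1`, in the family of the twists by `u P`, where `P` is a prime of degree `N` and `u ≠ 0`
a constant: the average of the order of `Sel_2` over the primes `P` is at most two, for any choice of the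
constants; the order is never larger than four, it is larger than two for at most one sixth of the
primes, and `Sel_(2 ^ ∞)` is zero for at least one third of them, up to an error of size
`q ^ (N / 2) / N`.

4. For every `n`, the sum of the orders of `Sel_2(E_D)` over all the monic squarefree `D` of degree `n`
(again with any constants) is at most `(n + 1) q ^ n`. -/
theorem result (k K : Type) [Field k] [Finite k] [Field K] [Algebra k[X] K]
    [IsFractionRing k[X] K] (f : k[X]) (hf : IsCubicBase f) :
    (∀ D : k[X], D ≠ 0 → Finite (Selmer k[X] (twist K f D)) ∧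
      selmerOrder K f D ≤ 2 ^ splitting f D) ∧
    (∀ D : k[X], D ≠ 0 → (∀ P : k[X], Irreducible P → P ∣ D → Irreducible (P.comp f)) →
      SelmerInfZero k[X] (twist K f D)) ∧
    (∀ N : ℕ, 0 < N → PrimeTwists K f N) ∧
    ∀ (u : k[X] → k), (∀ D, u D ≠ 0) → ∀ n : ℕ,
      ∑ᶠ D ∈ SquarefreesOfDegree k n, selmerOrder K f (C (u D) * D) ≤ (n + 1) * Nat.card k ^ n := by
  refine ⟨fun D hD => ?_, fun D hD hin => inf_zero hf hD hin, fun N hN => prime_twists hf hN,
    fun u hu n => ?_⟩
  · rw [splitting_eq hf.degree hD]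
    exact selmer_bound hf hD
  · have h1 := Pool.Agent.X261.SM.sqf_le (f := f) hf.degree (n := n)
      (I := fun D => selmerOrder K f (C (u D) * D)) (fun D hD => by
        have h2 := (selmer_bound (K := K) hf (mul_ne_zero (C_ne_zero.2 (hu D)) hD.1.ne_zero)).2
        rwa [primes_unit_mul (hu D) hD.1.ne_zero] at h2)
    change ∑ᶠ D ∈ sqf k n, _ ≤ _
    rw [finsum_mem_eq_finite_toFinset_sum _ (sqf_finite n)]
    exact h1

end Pool.Agent.Results.MP_a3f657_nt.SelmerPrimeTwistsCubicPencil
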