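import Mathlib
import Pool.Agent.TH344.SG.Bin

/-!
# The 2-torsion of the `2 ^ ∞`-Selmer groups in families given by split binary forms

Let `n` be even, let `l k i` (`k = 0, 1, 2`, `i = 1, ..., n`) be pairwise non-proportional linear
forms in `u, v` with integer coefficients, let `m k i` be odd, and let
`F_k = a_k ∏_i (l k i) ^ (m k i)` be binary forms with `F_0 - F_1 = F_2`. For the curves
`E : y² = x (x - F_0 (u, v)) (x - F_1 (u, v))` the average of `2 ^ rank * #Ш[2]`, the order of the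
2-torsion of the `2 ^ ∞`-Selmer group, over the coprime pairs `(u, v)` in squares of side `X` is
bounded, uniformly in the square, if the coordinates of the square are bounded by a power of `X`.
-/

namespace Pool.Agent.Results.MP_a3f657_nt.SplitBinaryForms

open Finset Pool.Agent.TH344.SH

/-- the curve `y² = x (x - A) (x - B)` -/
def E (A B : ℤ) : WeierstrassCurve ℚ := ⟨0, -((A : ℚ) + B), 0, (A : ℚ) * B, 0⟩

/-- the value at `(u, v)` of the binary form `F_k = a_k ∏_i (l k i) ^ (m k i)`, where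
`l (k, i) = (α, β)` stands for the linear form `α u + β v` -/
def F {n : ℕ} (l : Fin 3 × Fin n → ℤ × ℤ) (m : Fin 3 × Fin n → ℕ) (a : Fin 3 → ℤ) (k : Fin 3)
    (u v : ℤ) : ℤ :=
  a k * ∏ i : Fin n, ((l (k, i)).1 * u + (l (k, i)).2 * v) ^ m (k, i)

/-- the curve with the parameters `(u, v)` -/
def curve {n : ℕ} (l : Fin 3 × Fin n → ℤ × ℤ) (m : Fin 3 × Fin n → ℕ) (a : Fin 3 → ℤ)
    (t : ℤ × ℤ) : WeierstrassCurve ℚ :=
  E (F l m a 0 t.1 t.2) (F l m a 1 t.1 t.2)

/-- `2 ^ rank * #Ш[2]`, the order of the 2-torsion of the `2 ^ ∞`-Selmer group -/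
noncomputable def size (W : WeierstrassCurve ℚ) : ℝ :=
  (2 : ℝ) ^ Module.finrank ℤ W.toAffine.Point * Nat.card (ShaTorsion W 2)

open Classical in
/-- the coprime pairs `(u, v)`, `U < u ≤ U + X`, `V < v ≤ V + X`, at which no `F_k` vanishes -/
noncomputable def pairs {n : ℕ} (l : Fin 3 × Fin n → ℤ × ℤ) (m : Fin 3 × Fin n → ℕ)
    (a : Fin 3 → ℤ) (U V : ℤ) (X : ℕ) : Finset (ℤ × ℤ) :=
  (Ioc U (U + X) ×ˢ Ioc V (V + X)).filter (fun t : ℤ × ℤ => IsCoprime t.1 t.2 ∧
    ∀ k, F l m a k t.1 t.2 ≠ 0)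

open Classical in
/-- **Theorem.** Let `n` be even, `l` pairwise non-proportional linear forms, `m` odd exponents,
`a_k ≠ 0` and `F_0 - F_1 = F_2`. (1) For all `(u, v)` at which no `F_k` vanishes the curve is
nonsingular and the group `Ш[2]` is finite. (2) For every `L` there is a constant `C` such that
for every `X ≥ 1` and all `|U|, |V| ≤ X ^ L` the sum of `2 ^ rank * #Ш[2]` over the pairs of the
square is at most `C X²`, and, for every real `K > 0`, at most `C X² / K` of these pairs have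
`2 ^ rank * #Ш[2] ≥ K`. -/
theorem result (n : ℕ) (hn : Even n) (l : Fin 3 × Fin n → ℤ × ℤ) (m : Fin 3 × Fin n → ℕ)
    (hm : ∀ j, Odd (m j)) (a : Fin 3 → ℤ) (ha : ∀ k, a k ≠ 0)
    (hl : ∀ i j, i ≠ j → (l i).1 * (l j).2 ≠ (l j).1 * (l i).2)
    (hF : ∀ u v : ℤ, F l m a 0 u v - F l m a 1 u v = F l m a 2 u v) :
    (∀ t : ℤ × ℤ, (∀ k, F l m a k t.1 t.2 ≠ 0) →
      (curve l m a t).Δ ≠ 0 ∧ Finite (ShaTorsion (curve l m a t) 2)) ∧
    ∀ L : ℕ, ∃ C : ℝ, ∀ (X : ℕ) (U V : ℤ), 1 ≤ X → U.natAbs ≤ X ^ L → V.natAbs ≤ X ^ L →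
      ∑ t ∈ pairs l m a U V X, size (curve l m a t) ≤ C * (X : ℝ) ^ 2 ∧
      ∀ K : ℝ, 0 < K →
        (((pairs l m a U V X).filter (fun t => K ≤ size (curve l m a t))).card : ℝ) ≤
          C * (X : ℝ) ^ 2 / K := by
  have hne : ∀ t : ℤ × ℤ, (∀ k, F l m a k t.1 t.2 ≠ 0) →
      F l m a 0 t.1 t.2 ≠ F l m a 1 t.1 t.2 := by
    intro t h0 h
    apply h0 2
    rw [← hF, h, sub_self]
  refine ⟨fun t h0 => ⟨?_, ?_⟩, fun L => ?_⟩
  · have h1 := h0 0
    have h2 := h0 1
    have h3 := hne t h0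
    unfold curve E
    generalize F l m a 0 t.1 t.2 = A at h1 h3
    generalize F l m a 1 t.1 t.2 = B at h2 h3
    have h4 : (A : ℚ) ≠ 0 := Int.cast_ne_zero.2 h1
    have h5 : (B : ℚ) ≠ 0 := Int.cast_ne_zero.2 h2
    have h6 : (A : ℚ) - B ≠ 0 := sub_ne_zero.2 (fun h => h3 (by exact_mod_cast h))
    have h7 : (⟨0, -((A : ℚ) + B), 0, (A : ℚ) * B, 0⟩ : WeierstrassCurve ℚ).Δ =
        16 * ((A : ℚ) * B * ((A : ℚ) - B)) ^ 2 := by
      simp only [WeierstrassCurve.Δ, WeierstrassCurve.b₂, WeierstrassCurve.b₄,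
        WeierstrassCurve.b₆, WeierstrassCurve.b₈]
      ring
    rw [h7]
    positivity
  · exact (Pool.Agent.TH344.SG.sha_sel _ _ (h0 0) (h0 1) (hne t h0) _ rfl
      (Pool.Agent.W701.FK.sel_fin' (h0 0) (h0 1) (hne t h0))).1
  · obtain ⟨C, hC⟩ := Pool.Agent.TH344.SG.bin_sha hn l m hm a ha hl hF L E (fun _ _ => rfl)
    have hsum : ∀ (X : ℕ) (U V : ℤ), 1 ≤ X → U.natAbs ≤ X ^ L → V.natAbs ≤ X ^ L →
        ∑ t ∈ pairs l m a U V X, size (curve l m a t) ≤ C * (X : ℝ) ^ 2 := by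
      intro X U V hX hU hV
      exact hC X U V hX hU hV
    refine ⟨C, fun X U V hX hU hV => ⟨hsum X U V hX hU hV, fun K hK => ?_⟩⟩
    rw [le_div_iff₀ hK]
    refine le_trans ?_ (hsum X U V hX hU hV)
    calc (((pairs l m a U V X).filter (fun t => K ≤ size (curve l m a t))).card : ℝ) * K
        = ∑ _t ∈ (pairs l m a U V X).filter (fun t => K ≤ size (curve l m a t)), K := by
          rw [sum_const, nsmul_eq_mul]
      _ ≤ ∑ t ∈ (pairs l m a U V X).filter (fun t => K ≤ size (curve l m a t)),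
            size (curve l m a t) := sum_le_sum fun t ht => (mem_filter.1 ht).2
      _ ≤ ∑ t ∈ pairs l m a U V X, size (curve l m a t) :=
          sum_le_sum_of_subset_of_nonneg (filter_subset _ _) fun t _ _ => by
            unfold size
            positivity

end Pool.Agent.Results.MP_a3f657_nt.SplitBinaryForms
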